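import Pool.Agent.H94.Sg2

set_option autoImplicit false

namespace Pool.Agent.Results.MP_9fae52_an.Beaten
open Pool.Agent.H94.Sg

theorem result : (∃ A B, Motion A B ∧ cost A B ≤ ENNReal.ofReal 4.492) ∧
    ∀ θ : ℝ, Admissible θ → 4.494 ≤ costM θ :=
  ⟨upper, lower⟩

end Pool.Agent.Results.MP_9fae52_an.Beaten
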